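import Pool.Agent.helper13.UN.Spec

/-!
# Row un:IDM (MP_cf4097_nt): the number of ideals of a given norm
-/

set_option autoImplicit false

open NumberField Complex

namespace Pool.Agent.UN

open UniqueFactorizationMonoid

theorem IDM_over (K : Type) [Field K] [NumberField K] (S : Finset (Ideal (𝓞 K))) (p : ℕ) (hp : p.Prime)
    (hS : ∀ P ∈ S, P.IsPrime ∧ Ideal.absNorm (Ideal.under ℤ P) = p) : S.card ≤ Module.finrank ℚ K := by
  have : Fact p.Prime := ⟨hp⟩
  have hp0 : (Ideal.span {(p : ℤ)} : Ideal ℤ) ≠ ⊥ := by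
    rw [Ne, Ideal.span_singleton_eq_bot]
    exact_mod_cast hp.ne_zero
  refine (Finset.card_le_card fun P hP => ?_).trans
    (Ideal.card_primesOverFinset_le_finrank (𝓞 K) ℚ K (p := (Ideal.span {(p : ℤ)} : Ideal ℤ)) hp0)
  obtain ⟨h1, h2⟩ := hS P hP
  refine (IsDedekindDomain.mem_primesOverFinset_iff hp0 _).mpr ⟨h1, ?_⟩
  have h3 : P.LiesOver (Ideal.span {(Ideal.absNorm (Ideal.under ℤ P) : ℤ)}) := Int.liesOver_span_absNorm P
  rw [h2] at h3
  exact h3

theorem IDM : IDM_stmt := by
  classical
  intro K _ _ m hm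
  have hm0 : m ≠ 0 := by omega
  obtain ⟨n, hn⟩ : ∃ n, n = Module.finrank ℚ K := ⟨_, rfl⟩
  rw [← hn]
  obtain ⟨M, hM⟩ : ∃ M : Ideal (𝓞 K), M = Ideal.span {(m : 𝓞 K)} := ⟨_, rfl⟩
  have hMb : M ≠ ⊥ := by
    rw [hM, Ne, Ideal.span_singleton_eq_bot]
    exact_mod_cast hm0
  obtain ⟨S, hS⟩ : ∃ S : Finset (Ideal (𝓞 K)), S = (normalizedFactors M).toFinset := ⟨_, rfl⟩
  obtain ⟨q, hq⟩ : ∃ q : Ideal (𝓞 K) → ℕ, q = fun P => Ideal.absNorm (Ideal.under ℤ P) := ⟨_, rfl⟩
  have hSp : ∀ P ∈ S, P.IsPrime ∧ P ≠ ⊥ ∧ (q P).Prime ∧ q P ∣ m := by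
    intro P hP
    rw [hS, Multiset.mem_toFinset] at hP
    have h1 : Prime P := prime_of_normalized_factor P hP
    have h2 : P ≠ ⊥ := h1.ne_zero
    have h3 : P.IsPrime := (Ideal.prime_iff_isPrime h2).1 h1
    have : NeZero P := ⟨h2⟩
    have h4 : (q P).Prime := by rw [hq]; exact Nat.absNorm_under_prime P
    refine ⟨h3, h2, h4, ?_⟩
    have h5 : P ∣ M := dvd_of_mem_normalizedFactors hP
    have h6 : ((m : ℤ) : 𝓞 K) ∈ P := by
      have h7 : M ≤ P := Ideal.dvd_iff_le.1 h5
      rw [Int.cast_natCast]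
      refine h7 ?_
      rw [hM]
      exact Ideal.mem_span_singleton_self _
    rw [Int.cast_mem_ideal_iff] at h6
    rw [hq]
    exact_mod_cast h6
  have hI : ∀ I : Ideal (𝓞 K), Ideal.absNorm I = m → I ≠ ⊥ ∧ normalizedFactors I ≤ normalizedFactors M := by
    intro I h
    have h1 : I ≠ ⊥ := by
      rintro rfl
      rw [Ideal.absNorm_bot] at h
      exact hm0 h.symm
    refine ⟨h1, (dvd_iff_normalizedFactors_le_normalizedFactors h1 hMb).1 ?_⟩
    rw [Ideal.dvd_iff_le, hM, Ideal.span_singleton_le_iff_mem, ← h]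
    exact Ideal.absNorm_mem I
  have hcount : ∀ I : Ideal (𝓞 K), Ideal.absNorm I = m → ∀ P ∈ S,
      (normalizedFactors I).count P ≤ m.factorization (q P) := by
    intro I h P hP
    obtain ⟨h1, h2, h3, h4⟩ := hSp P hP
    rw [← Nat.Prime.pow_dvd_iff_le_factorization h3 hm0]
    have h5 : P ^ (normalizedFactors I).count P ∣ I := by
      have h6 : Multiset.replicate ((normalizedFactors I).count P) P ≤ normalizedFactors I :=
        Multiset.le_count_iff_replicate_le.1 le_rfl
      have h7 := Multiset.prod_dvd_prod_of_le h6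
      rw [Multiset.prod_replicate, Ideal.prod_normalizedFactors_eq_self (hI I h).1] at h7
      exact h7
    have h8 : Ideal.absNorm P ^ (normalizedFactors I).count P ∣ m := by
      have h9 := map_dvd Ideal.absNorm h5
      rw [map_pow, h] at h9
      exact h9
    refine dvd_trans (pow_dvd_pow_of_dvd ?_ _) h8
    rw [hq]
    exact Int.absNorm_under_dvd_absNorm P
  have hcard : {I : Ideal (𝓞 K) | Ideal.absNorm I = m}.ncard ≤
      (S.pi fun P => Finset.range (m.factorization (q P) + 1)).card := by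
    rw [← Set.ncard_coe_finset]
    refine Set.ncard_le_ncard_of_injOn (fun I P _ => (normalizedFactors I).count P) ?_ ?_ (Finset.finite_toSet _)
    · intro I h
      rw [Finset.mem_coe, Finset.mem_pi]
      intro P hP
      rw [Finset.mem_range]
      exact Nat.lt_succ_of_le (hcount I h P hP)
    · intro I h J h' he
      have h1 : normalizedFactors I = normalizedFactors J := by
        refine Multiset.ext.2 fun P => ?_
        by_cases hP : P ∈ S
        · exact congrFun (congrFun he P) hP
        · have h2 : ∀ L : Ideal (𝓞 K), Ideal.absNorm L = m → (normalizedFactors L).count P = 0 := by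
            intro L hL
            rw [Multiset.count_eq_zero]
            intro h3
            refine hP ?_
            rw [hS, Multiset.mem_toFinset]
            exact Multiset.mem_of_le (hI L hL).2 h3
          rw [h2 I h, h2 J h']
      rw [← Ideal.prod_normalizedFactors_eq_self (hI I h).1, h1, Ideal.prod_normalizedFactors_eq_self (hI J h').1]
  have hprod : (S.pi fun P => Finset.range (m.factorization (q P) + 1)).card ≤ m.divisors.card ^ n := by
    rw [Finset.card_pi, Nat.card_divisors hm0]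
    have h1 : ∀ P ∈ S, q P ∈ m.primeFactors := fun P hP =>
      Nat.mem_primeFactors.2 ⟨(hSp P hP).2.2.1, (hSp P hP).2.2.2, hm0⟩
    rw [← Finset.prod_fiberwise_of_maps_to h1, ← Finset.prod_pow]
    refine Finset.prod_le_prod' fun p hp => ?_
    have h2 : ∏ P ∈ S with q P = p, (Finset.range (m.factorization (q P) + 1)).card =
        (m.factorization p + 1) ^ (S.filter fun P => q P = p).card := by
      rw [← Finset.prod_const]
      refine Finset.prod_congr rfl fun P hP => ?_
      rw [Finset.card_range, (Finset.mem_filter.1 hP).2]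
    rw [h2]
    refine Nat.pow_le_pow_right (by omega) ?_
    rw [hn]
    refine IDM_over K _ p (Nat.prime_of_mem_primeFactors hp) fun P hP => ?_
    obtain ⟨h3, h4⟩ := Finset.mem_filter.1 hP
    refine ⟨(hSp P h3).1, ?_⟩
    rw [hq] at h4
    exact h4
  exact_mod_cast hcard.trans hprod

end Pool.Agent.UN
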